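import Pool.Agent.Q83.Rr.Key

/-!
The Riesz ratios of the sets `E_n` tend to infinity.
-/

set_option autoImplicit false
open Finset Filter Topology
open scoped ENNReal Matrix.Norms.L2Operator

namespace Pool.Agent.Results.MP_1b30fb_an.Infinity

instance (n : ℕ) : NeZero (Nat.nth Nat.Prime n) := ⟨(Nat.prime_nth_prime n).ne_zero⟩

/-- The character `e_b(x) = exp(2πi (b·x)/p)`. -/
noncomputable def ch {p : ℕ} (b x : ZMod p × ZMod p) : ℂ :=
  Complex.exp (2 * Real.pi * Complex.I * ((b.1 * x.1 + b.2 * x.2 : ZMod p).val : ℂ) / p)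

/-- The matrix `T(E,B)`. -/
noncomputable def T {p : ℕ} (E B : Finset (ZMod p × ZMod p)) : Matrix E B ℂ :=
  Matrix.of fun x b => ch b.1 x.1

/-- The operator norm of a matrix with respect to the Euclidean norms. -/
noncomputable def opn {m n : Type} [Fintype m] [Fintype n] [DecidableEq n] (A : Matrix m n ℂ) : ℝ :=
  ‖A‖

/-- The Riesz ratio of `B` relative to `E`: it is `‖T‖² ‖T⁻¹‖²` if the matrix `T` has an inverse
(which is then unique), and it is infinite otherwise. -/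
noncomputable def ratio {p : ℕ} (E B : Finset (ZMod p × ZMod p)) : ℝ≥0∞ :=
  ⨅ (S : Matrix B E ℂ) (_ : T E B * S = 1 ∧ S * T E B = 1), ENNReal.ofReal (opn (T E B) ^ 2 * opn S ^ 2)

/-- The Riesz ratio of `E`. -/
noncomputable def rho {p : ℕ} (E : Finset (ZMod p × ZMod p)) : ℝ≥0∞ :=
  ⨅ (B : Finset (ZMod p × ZMod p)) (_ : B.card = E.card), ratio E B

/-- The set `E = ({0} × ℤ_p) ∪ {(t,t)} ∪ {(1,0)}`. -/
def ES (p : ℕ) [NeZero p] : Finset (ZMod p × ZMod p) :=
  ({0} ×ˢ univ) ∪ univ.image (fun t => (t, t)) ∪ {(1, 0)}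

section
variable {p : ℕ} [Fact p.Prime]

lemma ES_eq : ES p = Q83.Rr.EE p := by
  ext x
  simp only [ES, Q83.Rr.EE, mem_union, mem_product, mem_singleton, mem_univ, and_true, mem_image,
    true_and, mem_filter]
  constructor
  · rintro ((h | ⟨t, rfl⟩) | h)
    · exact Or.inl h
    · exact Or.inr (Or.inl rfl)
    · exact Or.inr (Or.inr h)
  · rintro (h | h | h)
    · exact Or.inl (Or.inl h)
    · exact Or.inl (Or.inr ⟨x.1, Prod.ext rfl h⟩)
    · exact Or.inr h

lemma card_ES : (ES p).card = 2 * p := by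
  have hp1 : 1 < p := (Fact.out : p.Prime).one_lt
  have h1 : ES p = ({0} ×ˢ univ) ∪ ((univ.erase 0).image (fun t => ((t, t) : ZMod p × ZMod p)) ∪ {(1, 0)}) := by
    ext x
    simp only [ES, mem_union, mem_product, mem_singleton, mem_univ, and_true, mem_image,
      true_and, mem_erase]
    constructor
    · rintro ((h | ⟨t, rfl⟩) | h)
      · exact Or.inl h
      · by_cases ht : t = 0
        · exact Or.inl ht
        · exact Or.inr (Or.inl ⟨t, ht, rfl⟩)
      · exact Or.inr (Or.inr h)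
    · rintro (h | ⟨t, _, rfl⟩ | h)
      · exact Or.inl (Or.inl h)
      · exact Or.inl (Or.inr ⟨t, rfl⟩)
      · exact Or.inr h
  rw [h1, card_union_of_disjoint, card_union_of_disjoint, card_product, card_singleton, card_univ,
    ZMod.card, card_image_of_injective _ (fun a b h => (Prod.mk.inj h).1), card_erase_of_mem (mem_univ _),
    card_univ, ZMod.card, card_singleton]
  · omega
  · rw [Finset.disjoint_left]
    intro x hx hx2
    rw [mem_image] at hx
    obtain ⟨t, ht, rfl⟩ := hx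
    rw [mem_singleton, Prod.mk.injEq] at hx2
    rw [hx2.1] at hx2
    exact one_ne_zero hx2.2
  · rw [Finset.disjoint_left]
    intro x hx hx2
    rw [mem_product, mem_singleton] at hx
    rw [mem_union, mem_image, mem_singleton] at hx2
    rcases hx2 with ⟨t, ht, rfl⟩ | h
    · exact (mem_erase.1 ht).1 hx.1
    · rw [h] at hx
      exact one_ne_zero hx.1

lemma ch_eq (b x : ZMod p × ZMod p) : ch b x = ZMod.stdAddChar (b.1 * x.1 + b.2 * x.2) := by
  unfold ch
  rw [ZMod.stdAddChar_apply, ZMod.toCircle_apply]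

lemma mulVec_T (E B : Finset (ZMod p × ZMod p)) (v : B → ℂ) (x : E) :
    (T E B).mulVec v x = Q83.Rr.FF B v x := by
  unfold T Q83.Rr.FF
  simp only [Matrix.mulVec, dotProduct, Matrix.of_apply]
  refine sum_congr rfl fun b _ => ?_
  rw [ch_eq, mul_comm]

/-- The sum of the squares. -/
noncomputable def sq {n : Type} [Fintype n] (v : n → ℂ) : ℝ := ∑ i, ‖v i‖ ^ 2

lemma sq_nonneg' {n : Type} [Fintype n] (v : n → ℂ) : 0 ≤ sq v :=
  sum_nonneg fun i _ => by positivity

lemma sq_mulVec {m n : Type} [Fintype m] [Fintype n] [DecidableEq n] (A : Matrix m n ℂ) (v : n → ℂ) :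
    sq (A.mulVec v) ≤ opn A ^ 2 * sq v := by
  have h := Matrix.l2_opNorm_mulVec A (WithLp.toLp 2 v)
  have h2 := pow_le_pow_left₀ (norm_nonneg _) h 2
  rw [mul_pow, EuclideanSpace.norm_sq_eq, EuclideanSpace.norm_sq_eq] at h2
  exact h2

lemma sq_T (E B : Finset (ZMod p × ZMod p)) (v : B → ℂ) :
    sq ((T E B).mulVec v) = ∑ x ∈ E, ‖Q83.Rr.FF B v x‖ ^ 2 := by
  unfold sq
  rw [← sum_coe_sort E]
  exact sum_congr rfl fun x _ => by rw [mulVec_T]

/-- The bound for one exponential system. -/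
lemma bound (B : Finset (ZMod p × ZMod p)) (hB : B.card = (ES p).card) (C : ℝ) (hC : 0 ≤ C)
    (S : Matrix B (ES p) ℂ) (hS : T (ES p) B * S = 1 ∧ S * T (ES p) B = 1)
    (hle : opn (T (ES p) B) ^ 2 * opn S ^ 2 ≤ C) (L D : ℕ) (hD : 2 * C ≤ D)
    (hp : (D + 1) ^ L < 2 * p) : (L : ℝ) ≤ 2 * C + C * L ^ 2 / (2 * p) := by
  classical
  have hp0 : (0 : ℝ) < p := by
    have := (Fact.out : p.Prime).pos
    exact_mod_cast this
  set a := opn (T (ES p) B) ^ 2 with ha
  set a' := opn S ^ 2 with ha'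
  have ha0 : 0 ≤ a := by positivity
  have ha0' : 0 ≤ a' := by positivity
  have hup : ∀ v : B → ℂ, sq ((T (ES p) B).mulVec v) ≤ a * sq v := fun v => sq_mulVec _ v
  have hlow : ∀ v : B → ℂ, sq v ≤ a' * sq ((T (ES p) B).mulVec v) := by
    intro v
    have := sq_mulVec S ((T (ES p) B).mulVec v)
    rwa [Matrix.mulVec_mulVec, hS.2, Matrix.one_mulVec] at this
  -- one exponential
  have hBpos : 0 < B.card := by
    rw [hB, card_ES]
    have := (Fact.out : p.Prime).pos
    omega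
  obtain ⟨b0, hb0⟩ := card_pos.1 hBpos
  set v0 : B → ℂ := Pi.single ⟨b0, hb0⟩ 1 with hv0
  have hv0n : sq v0 = 1 := by
    unfold sq
    rw [sum_eq_single ⟨b0, hb0⟩]
    · simp [hv0]
    · intro b _ hb
      simp [hv0, hb]
    · intro h
      exact (h (mem_univ _)).elim
  have hTv0 : sq ((T (ES p) B).mulVec v0) = 2 * p := by
    rw [sq_T]
    have h1 : ∀ x ∈ ES p, ‖Q83.Rr.FF B v0 x‖ ^ 2 = 1 := by
      intro x _
      unfold Q83.Rr.FF
      rw [sum_eq_single ⟨b0, hb0⟩]
      · rw [norm_mul, Q83.Rr.norm_chi, hv0]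
        simp
      · intro b _ hb
        rw [hv0]
        simp [hb]
      · intro h
        exact (h (mem_univ _)).elim
    rw [sum_congr rfl h1, sum_const, card_ES]
    simp
  have h1 : 2 * (p : ℝ) ≤ a := by
    have := hup v0
    rw [hTv0, hv0n] at this
    linarith
  have h2 : 1 ≤ a' * (2 * p) := by
    have := hlow v0
    rwa [hTv0, hv0n] at this
  apply Q83.Rr.key B C hC ?_ ?_ ?_ L D hD hp
  · intro v
    have h3 := hlow v
    rw [sq_T, ES_eq] at h3
    have h5 : 0 ≤ ∑ x ∈ Q83.Rr.EE p, ‖Q83.Rr.FF B v x‖ ^ 2 := sum_nonneg fun x _ => by positivity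
    calc 2 * (p : ℝ) * ∑ b, ‖v b‖ ^ 2 ≤ a * (a' * ∑ x ∈ Q83.Rr.EE p, ‖Q83.Rr.FF B v x‖ ^ 2) := by
          apply mul_le_mul h1 h3 (sum_nonneg fun x _ => by positivity) ha0
      _ = (a * a') * ∑ x ∈ Q83.Rr.EE p, ‖Q83.Rr.FF B v x‖ ^ 2 := by ring
      _ ≤ C * ∑ x ∈ Q83.Rr.EE p, ‖Q83.Rr.FF B v x‖ ^ 2 := mul_le_mul_of_nonneg_right hle h5
  · intro v
    have h3 := hup v
    rw [sq_T, ES_eq] at h3
    refine h3.trans ?_
    apply mul_le_mul_of_nonneg_right _ (sq_nonneg' v)
    calc a = a * 1 := by ring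
      _ ≤ a * (a' * (2 * p)) := mul_le_mul_of_nonneg_left h2 ha0
      _ = (2 * p) * (a * a') := by ring
      _ ≤ 2 * p * C := mul_le_mul_of_nonneg_left hle (by positivity)
  · intro w
    refine ⟨S.mulVec fun x : ES p => w x, fun x hx => ?_⟩
    rw [← ES_eq] at hx
    rw [← mulVec_T (ES p) B _ ⟨x, hx⟩, Matrix.mulVec_mulVec, hS.1, Matrix.one_mulVec]

end

/-- The Riesz ratios of the sets `E_n` tend to infinity. Here `p_n = Nat.nth Nat.Prime n` is the
`n`-th odd prime for every `n ≥ 1` (`p_1 = 3`). -/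
theorem result : Tendsto (fun n : ℕ => rho (ES (Nat.nth Nat.Prime n))) atTop (𝓝 ⊤) := by
  rw [ENNReal.tendsto_nhds_top_iff_nnreal]
  intro C
  obtain ⟨δ, hδ⟩ : ∃ δ : ℝ, δ = 1 := ⟨1, rfl⟩
  have hδ0 : 0 < δ := by rw [hδ]; norm_num
  obtain ⟨D, hD⟩ := exists_nat_ge (2 * ((C : ℝ) + δ))
  obtain ⟨L, hL⟩ := exists_nat_gt (2 * ((C : ℝ) + δ) + 1)
  obtain ⟨P, hP⟩ := exists_nat_gt (((C : ℝ) + δ) * L ^ 2)
  have hmono : Tendsto (fun n : ℕ => Nat.nth Nat.Prime n) atTop atTop :=
    (Nat.nth_strictMono Nat.infinite_setOfPred_prime).tendsto_atTop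
  filter_upwards [hmono.eventually_ge_atTop (max P ((D + 1) ^ L))] with n hn
  haveI : Fact (Nat.nth Nat.Prime n).Prime := ⟨Nat.prime_nth_prime n⟩
  set p := Nat.nth Nat.Prime n with hp
  by_contra hc
  rw [not_lt] at hc
  -- the minimum is attained
  have h1 : ∃ B : Finset (ZMod p × ZMod p), B.card = (ES p).card ∧ ratio (ES p) B ≤ C := by
    by_contra hno
    push Not at hno
    have hfin : (C : ℝ≥0∞) < rho (ES p) := by
      unfold rho
      obtain ⟨B0, hB0m, hB0⟩ := Finset.exists_min_image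
        (univ.filter fun B : Finset (ZMod p × ZMod p) => B.card = (ES p).card)
        (fun B => ratio (ES p) B) ⟨ES p, by simp⟩
      refine lt_of_lt_of_le (hno B0 (by simpa using hB0m)) ?_
      exact le_iInf₂ fun B hB => hB0 B (by simpa using hB)
    exact absurd hc (not_le.2 hfin)
  obtain ⟨B, hB, hBC⟩ := h1
  have h4 : ratio (ES p) B < ENNReal.ofReal ((C : ℝ) + δ) := by
    refine lt_of_le_of_lt hBC ?_
    rw [← ENNReal.ofReal_coe_nnreal, ENNReal.ofReal_lt_ofReal_iff (by positivity)]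
    linarith
  unfold ratio at h4
  rw [iInf_lt_iff] at h4
  obtain ⟨S, h4⟩ := h4
  rw [iInf_lt_iff] at h4
  obtain ⟨hS, hSC⟩ := h4
  rw [ENNReal.ofReal_lt_ofReal_iff (by positivity)] at hSC
  have hp0 : 0 < p := (Nat.prime_nth_prime n).pos
  have h2 := bound B hB (C + δ) (by positivity) S hS hSC.le L D hD (by
    have := (le_max_right P ((D + 1) ^ L)).trans hn
    omega)
  have hp0' : (0 : ℝ) < p := by exact_mod_cast hp0
  have h3 : ((C : ℝ) + δ) * L ^ 2 / (2 * p) ≤ 1 := by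
    rw [div_le_one (by positivity)]
    have h4 : (P : ℝ) ≤ p := by exact_mod_cast (le_max_left P ((D + 1) ^ L)).trans hn
    linarith
  linarith

end Pool.Agent.Results.MP_1b30fb_an.Infinity
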